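import Pool.Agent.MP_3ee8cb_gt.DNJC.Jac
import Pool.Agent.MP_3ee8cb_gt.DN.Spec

/-! The invariant volume of the geodesic flow of a moving frame, and the list of consequences. -/

namespace Pool.Agent.MP_3ee8cb_gt.DNJC

open DN (Dim dm)

variable [Dim]

open DN Set
open scoped RealInnerProductSpace

section

variable {E : Type} [NormedAddCommGroup E] [InnerProductSpace ℝ E] [FiniteDimensional ℝ E]

theorem det_symp {A B : E × E →ₗ[ℝ] E × E} (h : ∀ ξ η, ⟪(A ξ).1, (A η).2⟫ - ⟪(A ξ).2, (A η).1⟫ =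
    ⟪(B ξ).1, (B η).2⟫ - ⟪(B ξ).2, (B η).1⟫) : |A.det| = |B.det| := by
  classical
  let ω : LinearMap.BilinForm ℝ (E × E) := LinearMap.mk₂ ℝ
    (fun p q => ⟪p.1, q.2⟫ - ⟪p.2, q.1⟫) (fun _ _ _ => by simp [inner_add_left]; ring)
    (fun _ _ _ => by simp [inner_smul_left]; ring) (fun _ _ _ => by simp [inner_add_right]; ring)
    (fun _ _ _ => by simp [inner_smul_right]; ring)
  have nd : ω.Nondegenerate := .ofSeparatingLeft fun p hp => by
    have h1 := hp (0, p.1)
    have h2 := hp (p.2, 0)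
    simp [ω] at h1 h2
    exact Prod.ext h1 h2
  let b := Module.finBasis ℝ (E × E)
  have e : ω.comp A A = ω.comp B B := LinearMap.ext₂ h
  have d := congrArg (fun β => (LinearMap.BilinForm.toMatrix b β).det) e
  simp only [LinearMap.BilinForm.toMatrix_comp b b, Matrix.det_mul, Matrix.det_transpose,
    LinearMap.det_toMatrix] at d
  have n := (LinearMap.BilinForm.nondegenerate_iff_det_ne_zero b).1 nd
  refine sq_eq_sq_iff_abs_eq_abs _ _ |>.1 (mul_left_cancel₀ n ?_)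
  linear_combination d

theorem det_tri {A : E × E →ₗ[ℝ] E × E} (S N : E →ₗ[ℝ] E) (h : ∀ ξ, A ξ = (S ξ.1, ξ.2 + N ξ.1)) :
    |A.det| = |S.det| := by
  let T : E × E →ₗ[ℝ] E × E := (LinearMap.fst ℝ E E).prod (.snd ℝ E E + N ∘ₗ .fst ℝ E E)
  let D : E × E →ₗ[ℝ] E × E := LinearMap.prodMap .id (-.id)
  have e1 : A = S.prodMap .id * T := LinearMap.ext fun ξ => by simp [h, T]
  have e2 : D * T * (D * T) = 1 := LinearMap.ext fun ξ => by simp [D, T]
  have e3 : D * D = 1 := LinearMap.ext fun ξ => by simp [D]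
  have d2 := congrArg LinearMap.det e2
  have d3 := congrArg LinearMap.det e3
  simp only [map_mul, map_one] at d2 d3
  have d4 : |T.det| = 1 := by
    rw [← abs_one, ← sq_eq_sq_iff_abs_eq_abs]
    linear_combination d2 - T.det ^ 2 * d3
  rw [e1, map_mul, abs_mul, d4, LinearMap.det_prodMap]
  simp

end

variable {m : MF}

theorem det_hv (z : V × V) :
    |LinearMap.det ((m.hor z).prod (m.ver z) : V × V →ₗ[ℝ] V × V)| = |(m.S z.1).det| :=
  det_tri (m.S z.1 : V →ₗ[ℝ] V) ((m.om z.1).flip z.2 : V →ₗ[ℝ] V) fun _ => rfl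

theorem vol (h : m.OK) (z : V × V) (t : ℝ) :
    |(m.S (m.Z t z).1).det| * |(fderiv ℝ (m.Z t) z).det| = |(m.S z.1).det| := by
  rw [← det_hv, ← det_hv, ContinuousLinearMap.det, ← abs_mul, ← map_mul]
  exact det_symp fun ξ η => symp h z ξ η t

end Pool.Agent.MP_3ee8cb_gt.DNJC

namespace Pool.Agent.MP_3ee8cb_gt.DN

variable [Dim]

open DNJC

theorem sJAC : SJAC := fun _ h =>
  ⟨norm_Z h, scale h, cK h, lK, aK, sK h, pK h, d1 h, d2 h, par h, symp h, vol h⟩

end Pool.Agent.MP_3ee8cb_gt.DN
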