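import Pool.Agent.MP_3ee8cb_gt.DN.Defs

/-! The symmetries of the curvature tensor of a moving frame. -/

namespace Pool.Agent.MP_3ee8cb_gt.DNJC

open DN (Dim dm)

variable [Dim]

open DN Set
open scoped RealInnerProductSpace

variable {m : MF} (h : m.OK)
include h

theorem dR (y : V) : HasFDerivAt m.R (fderiv ℝ m.R y) y :=
  (h.cR.differentiable two_ne_zero y).hasFDerivAt

theorem dS (y : V) : HasFDerivAt m.S (fderiv ℝ m.S y) y :=
  (h.cS.differentiable two_ne_zero y).hasFDerivAt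

theorem dom (y : V) : HasFDerivAt m.om (fderiv ℝ m.om y) y :=
  (h.com.differentiable one_ne_zero y).hasFDerivAt

theorem cK : Continuous fun q : V × V × V × V => m.K q.1 q.2.1 q.2.2.1 q.2.2.2 := by
  have c1 := h.com.continuous_fderiv one_ne_zero
  have c2 := h.com.continuous
  have c3 := h.cR.continuous
  simp only [MF.K, MF.Om]
  fun_prop

omit h in
theorem alt {E F : Type} [NormedAddCommGroup E] [NormedSpace ℝ E] [NormedAddCommGroup F]
    [NormedSpace ℝ F] (D P : E →L[ℝ] E →L[ℝ] F) (R : E →L[ℝ] E) : ∃ L : E →L[ℝ] E →L[ℝ] F,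
    ∀ a b, L a b = D (R a) (R b) - D (R b) (R a) + P (R a) (R b) - P (R b) (R a) :=
  ⟨(D - D.flip + P - P.flip).bilinearComp R R, fun _ _ => rfl⟩

omit h in
theorem lK (y : V) : ∃ L : V →L[ℝ] V →L[ℝ] V →L[ℝ] V, ∀ a b c, m.K y a b c = L a b c := by
  obtain ⟨L, hL⟩ := alt (F := V →L[ℝ] V) (fderiv ℝ m.om y)
    ((ContinuousLinearMap.compL ℝ V V V).bilinearComp (m.om y) (m.om y)) (m.R y)
  exact ⟨L, fun a b c => by rw [hL]; rfl⟩

omit h in
theorem aK (y a b c : V) : m.K y a b c = -m.K y b a c := by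
  simp only [MF.K, MF.Om]
  abel

theorem dom_skew (y w u a b : V) :
    ⟪fderiv ℝ m.om y w u a, b⟫ = -⟪a, fderiv ℝ m.om y w u b⟫ := by
  have d : ∀ a, HasFDerivAt (fun y => m.om y u a) _ y := fun a =>
    ((dom h y).clm_apply (hasFDerivAt_const u y)).clm_apply (hasFDerivAt_const a y)
  have h1 := ((d a).inner ℝ (hasFDerivAt_const b y)).add ((hasFDerivAt_const a y).inner ℝ (d b))
  have h2 : ((fun y => ⟪m.om y u a, b⟫) + fun y => ⟪a, m.om y u b⟫) = fun _ => (0 : ℝ) :=
    funext fun y => by simp [h.skew]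
  rw [h2] at h1
  have := congrArg (fun L : V →L[ℝ] ℝ => L w) (h1.unique (hasFDerivAt_const 0 y))
  simp at this
  linarith

theorem sK (y a b c d : V) : ⟪m.K y a b c, d⟫ = -⟪c, m.K y a b d⟫ := by
  simp only [MF.K, MF.Om, inner_add_left, inner_sub_left, inner_add_right, inner_sub_right,
    dom_skew h, h.skew]
  ring

theorem tors' (y w u v : V) :
    fderiv ℝ (fderiv ℝ m.S) y w u v - fderiv ℝ (fderiv ℝ m.S) y w v u +
      (fderiv ℝ m.om y w u (m.S y v) + m.om y u (fderiv ℝ m.S y w v)) -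
      (fderiv ℝ m.om y w v (m.S y u) + m.om y v (fderiv ℝ m.S y w u)) = 0 := by
  have d2 : HasFDerivAt (fderiv ℝ m.S) (fderiv ℝ (fderiv ℝ m.S) y) y :=
    ((h.cS.fderiv_right (m := 1) le_rfl).differentiable one_ne_zero y).hasFDerivAt
  have a : ∀ u v, HasFDerivAt (fun y => fderiv ℝ m.S y u v) _ y := fun u v =>
    (d2.clm_apply (hasFDerivAt_const u y)).clm_apply (hasFDerivAt_const v y)
  have b : ∀ u v, HasFDerivAt (fun y => m.om y u (m.S y v)) _ y := fun u v =>
    ((dom h y).clm_apply (hasFDerivAt_const u y)).clm_apply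
      ((dS h y).clm_apply (hasFDerivAt_const v y))
  have h1 := (((a u v).fun_sub (a v u)).fun_add (b u v)).fun_sub (b v u)
  rw [funext fun y => h.tors y u v] at h1
  have := congrArg (fun L : V →L[ℝ] V => L w) (h1.unique (hasFDerivAt_const 0 y))
  simp at this
  rw [← this]
  abel

theorem bianchi (y u v w : V) :
    m.Om y u v (m.S y w) + m.Om y v w (m.S y u) + m.Om y w u (m.S y v) = 0 := by
  have sy : ∀ a b, fderiv ℝ (fderiv ℝ m.S) y a b = fderiv ℝ (fderiv ℝ m.S) y b a :=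
    fun a b => (h.cS.contDiffAt.isSymmSndFDerivAt (by simp)).eq a b
  have t1 := tors' h y w u v
  have t2 := tors' h y u v w
  have t3 := tors' h y v w u
  have s1 := congrArg (m.om y u) (h.tors y w v)
  have s2 := congrArg (m.om y v) (h.tors y u w)
  have s3 := congrArg (m.om y w) (h.tors y v u)
  simp only [map_add, map_sub, map_zero] at s1 s2 s3
  rw [sy w u, sy w v] at t1
  rw [sy v u] at t3
  simp only [MF.Om]
  linear_combination (norm := abel1) t1 + t2 + t3 - s1 - s2 - s3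

theorem bK (y a b c : V) : m.K y a b c + m.K y b c a + m.K y c a b = 0 := by
  simpa only [MF.K, h.SR] using bianchi h y (m.R y a) (m.R y b) (m.R y c)

theorem pK (y a b c d : V) : ⟪m.K y a b c, d⟫ = ⟪m.K y c d a, b⟫ := by
  have B : ∀ a b c d, ⟪m.K y a b c, d⟫ + ⟪m.K y b c a, d⟫ + ⟪m.K y c a b, d⟫ = 0 :=
    fun a b c d => by rw [← inner_add_left, ← inner_add_left, bK h, inner_zero_left]
  have A : ∀ a b c d, ⟪m.K y a b c, d⟫ = -⟪m.K y b a c, d⟫ := fun a b c d => by
    rw [aK, inner_neg_left]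
  have S : ∀ a b c d, ⟪m.K y a b c, d⟫ = -⟪m.K y a b d, c⟫ := fun a b c d => by
    rw [sK h, real_inner_comm]
  linarith [B a b c d, B b c d a, B c d a b, B d a b c, S a b c d, S b c a d, S c d a b,
    S d a b c, S c a b d, A c a d b, S b d a c, A d b c a, A b d c a, A d b a c, A a c d b]

end Pool.Agent.MP_3ee8cb_gt.DNJC
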