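import Pool.Agent.MP_3ee8cb_gt.DNJC.Alg
import Pool.Agent.MP_3ee8cb_gt.DNJC.Ode

/-! The geodesic flow of a moving frame: uniqueness, parallel frames, Jacobi equations. -/

namespace Pool.Agent.MP_3ee8cb_gt.DNJC

open DN (Dim dm)

variable [Dim]

open DN Set
open scoped RealInnerProductSpace

variable {m : MF} (h : m.OK)
include h

theorem cvf : ContDiff ℝ 1 m.vf := by
  have c1 : ContDiff ℝ 1 fun z : V × V => m.R z.1 z.2 :=
    ((h.cR.of_le one_le_two).comp contDiff_fst).clm_apply contDiff_snd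
  exact c1.prodMk (((h.com.comp contDiff_fst).clm_apply c1).clm_apply contDiff_snd).neg

theorem cZt (t : ℝ) : ContDiff ℝ 1 (m.Z t) :=
  h.cZ.comp (f := fun z : V × V => (t, z)) (contDiff_const.prodMk contDiff_id)

theorem dZ (t : ℝ) (z : V × V) : HasFDerivAt (m.Z t) (fderiv ℝ (m.Z t) z) z :=
  ((cZt h t).differentiable one_ne_zero z).hasFDerivAt

theorem cZz (z : V × V) : Continuous fun t => m.Z t z :=
  continuous_iff_continuousAt.2 fun t => (h.ode z t).continuousAt

theorem ode1 (z : V × V) (t : ℝ) :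
    HasDerivAt (fun s => (m.Z s z).1) (m.R (m.Z t z).1 (m.Z t z).2) t :=
  (ContinuousLinearMap.fst ℝ V V).hasFDerivAt.comp_hasDerivAt t (h.ode z t)

theorem ode2 (z : V × V) (t : ℝ) :
    HasDerivAt (fun s => (m.Z s z).2) (-m.w z t (m.Z t z).2) t :=
  (ContinuousLinearMap.snd ℝ V V).hasFDerivAt.comp_hasDerivAt t (h.ode z t)

theorem w_skew (z : V × V) (t : ℝ) (a b : V) : ⟪m.w z t a, b⟫ = -⟪a, m.w z t b⟫ :=
  h.skew _ _ a b

/-- Parallel fields have constant inner products. -/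
theorem par_inner (z : V × V) {a b : ℝ → V} (ha : ∀ t, HasDerivAt a (-m.w z t (a t)) t)
    (hb : ∀ t, HasDerivAt b (-m.w z t (b t)) t) (t : ℝ) : ⟪a t, b t⟫ = ⟪a 0, b 0⟫ := by
  have d : ∀ t, HasDerivAt (fun t => ⟪a t, b t⟫) 0 t := fun t =>
    ((ha t).inner ℝ (hb t)).congr_deriv (by simp [w_skew h])
  exact is_const_of_deriv_eq_zero (fun t => (d t).differentiableAt) (fun t => (d t).deriv) t 0

theorem norm_Z (t : ℝ) (z : V × V) : ‖(m.Z t z).2‖ = ‖z.2‖ := by
  have := par_inner h z (ode2 h z) (ode2 h z) t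
  rwa [h.zero, real_inner_self_eq_norm_sq, real_inner_self_eq_norm_sq,
    sq_eq_sq₀ (norm_nonneg _) (norm_nonneg _)] at this

theorem dZ_vf (s : ℝ) (z : V × V) : fderiv ℝ (m.Z s) z (m.vf z) = m.vf (m.Z s z) := by
  have h1 := h.ode z 0
  rw [h.zero] at h1
  have h2 := (dZ h s z).comp_hasDerivAt_of_eq 0 h1 (h.zero z).symm
  have h3 : HasDerivAt (fun t => m.Z (s + t) z) (m.vf (m.Z s z)) 0 := by
    simpa using (h.ode z (s + 0)).comp_const_add s 0
  simp only [h.add] at h3
  exact h2.unique h3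

/-- Solutions of the geodesic equation are orbits. -/
theorem uniq {c : ℝ → V × V} (hc : ∀ t, HasDerivAt c (m.vf (c t)) t) (t : ℝ) :
    c t = m.Z t (c 0) := by
  have d : ∀ t, HasDerivAt (fun t => m.Z (-t) (c t)) 0 t := fun t => by
    have D := (h.cZ.differentiable one_ne_zero (-t, c t)).hasFDerivAt
    have h1 := D.comp_hasDerivAt t ((hasDerivAt_neg t).prodMk (hc t))
    have h2 := (D.comp_hasDerivAt (-t)
      ((hasDerivAt_id (-t)).prodMk (hasDerivAt_const (-t) (c t)))).unique (h.ode (c t) (-t))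
    have h3 := (D.comp (c t) (hasFDerivAt_prodMk_right (-t) (c t))).unique (dZ h (-t) (c t))
    refine h1.congr_deriv ?_
    have e : ((-1 : ℝ), m.vf (c t)) =
        ContinuousLinearMap.inr ℝ ℝ (V × V) (m.vf (c t)) - (1, 0) := by simp
    rw [e, map_sub, h2, ← ContinuousLinearMap.comp_apply, h3, dZ_vf h, sub_self]
  have := is_const_of_deriv_eq_zero (fun t => (d t).differentiableAt) (fun t => (d t).deriv) t 0
  simp only [neg_zero, h.zero] at this
  rw [← this, ← h.add, add_neg_cancel, h.zero]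

theorem scale (t r : ℝ) (y b : V) :
    m.Z t (y, r • b) = ((m.Z (r * t) (y, b)).1, r • (m.Z (r * t) (y, b)).2) := by
  have := uniq h (c := fun t => ((m.Z (r * t) (y, b)).1, r • (m.Z (r * t) (y, b)).2))
    (fun t => by
      have d := (hasDerivAt_id t).const_mul r
      refine (((ode1 h (y, b) (r * t)).scomp t d).prodMk
        (((ode2 h (y, b) (r * t)).scomp t d).const_smul r)).congr_deriv ?_
      simp [MF.vf, MF.w]) t
  simpa [h.zero] using this.symm

theorem cw (z : V × V) : Continuous (m.w z) := by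
  have c1 := h.com.continuous
  have c2 := h.cR.continuous
  have c3 := cZz h z
  unfold MF.w
  fun_prop

theorem par (z : V × V) : ∃ O : ℝ → V ≃ₗᵢ[ℝ] V, (∀ a, O 0 a = a) ∧ (∀ t, O t z.2 = (m.Z t z).2) ∧
    ∀ a t, HasDerivAt (fun s => O s a) (-m.w z t (O t a)) t := by
  obtain ⟨Y, h0, hY⟩ := lin_line (A := fun t => ContinuousLinearMap.compL ℝ V V V (-m.w z t))
    ((ContinuousLinearMap.compL ℝ V V V).continuous.comp (cw h z).neg) (.id ℝ V)
  have d : ∀ a t, HasDerivAt (fun s => Y s a) (-m.w z t (Y t a)) t := fun a t => by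
    simpa using (hY t).clm_apply (hasDerivAt_const t a)
  have i : ∀ t a b, ⟪(Y t : V →ₗ[ℝ] V) a, (Y t : V →ₗ[ℝ] V) b⟫ = ⟪a, b⟫ := fun t a b => by
    simpa [h0] using par_inner h z (d a) (d b) t
  refine ⟨fun t => ((Y t : V →ₗ[ℝ] V).isometryOfInner (i t)).toLinearIsometryEquiv rfl,
    fun a => ?_, fun t => ?_, d⟩
  · show Y 0 a = a
    simp [h0]
  · show Y t z.2 = _
    have d2 : ∀ t, HasDerivAt (fun s => Y s z.2 - (m.Z s z).2)
        (-m.w z t (Y t z.2 - (m.Z t z).2)) t := fun t =>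
      ((d z.2 t).fun_sub (ode2 h z t)).congr_deriv (by rw [map_sub]; abel)
    have := par_inner h z d2 d2 t
    simpa [h0, h.zero, sub_eq_zero] using this

end Pool.Agent.MP_3ee8cb_gt.DNJC
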